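import Pool.Agent.Helper47.Stab.CommA

/-! Two localisations of bivariant theories commute. -/

open CategoryTheory Topology Filter Set Opposite

noncomputable section

namespace Pool.Agent.Helper1.Stab

namespace CommX

/-! ## Additivity -/

section additivity

variable {G H : GF} (hG0 : G.Red) (hH0 : H.Red)
  (dz : ∀ (b : ℕ) (K : Test) (x : (H.h b).obj (op (Test.dbl9 K))),
    pbT (H.h b) (K := K) (L := Test.dbl9 K) (PMap.inl K.obj K.obj) x = 0 →
    pbT (H.h b) (K := K) (L := Test.dbl9 K) (PMap.inr K.obj K.obj) x = 0 → x = 0)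
  (θ : ∀ (b : ℕ) (K : Test), ((G.h b).obj (op K) : Type) → ((H.h b).obj (op K) : Type))
  (nat : ∀ (b : ℕ) (K L : Test) (f : PMap K.obj L.obj.plus) (x : (G.h b).obj (op L)),
    θ b K (pbT (G.h b) f x) = pbT (H.h b) f (θ b L x))
  (sg : ∀ (b : ℕ) (K : Test) (x : (G.h b).obj (op K)),
    θ (b + 1) (Test.cx.obj K) ((G.σ b).hom.app (op K) x) = (H.σ b).hom.app (op K) (θ b K x))

include hG0 hH0 dz nat in
theorem add_cx (b : ℕ) (K : Test) : ∀ (x y : (G.h b).obj (op (Test.cx.obj K))),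
    θ b (Test.cx.obj K) (x + y) = θ b (Test.cx.obj K) x + θ b (Test.cx.obj K) y := by
  let L : Test := Test.cx.obj K
  change ∀ (x y : (G.h b).obj (op L)), θ b L (x + y) = θ b L x + θ b L y
  intro x y
  let c1 : PMap (Test.dbl9 L).obj L.obj.plus :=
    (PMap.id L.obj).copair (PMap.zero L.obj L.obj.plus)
  let c2 : PMap (Test.dbl9 L).obj L.obj.plus :=
    (PMap.zero L.obj L.obj.plus).copair (PMap.id L.obj)
  let p : PMap L.obj (Test.dbl9 L).obj.plus := pinchK K.obj
  let i1 : PMap L.obj (Test.dbl9 L).obj.plus := PMap.inl L.obj L.obj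
  let i2 : PMap L.obj (Test.dbl9 L).obj.plus := PMap.inr L.obj L.obj
  have p1 : ∀ (F : Testᵒᵖ ⥤ AddCommGrpCat.{0}) (x : F.obj (op L)),
      pbT F p (pbT F c1 x) = x := by
    intro F x
    rw [← pbT_comp, pbT_homotopic F (pinchK_unit_left K.obj : (PMap.comp c1 p).Homotopic _)]
    exact pbT_id F L x
  have p2 : ∀ (F : Testᵒᵖ ⥤ AddCommGrpCat.{0}) (x : F.obj (op L)),
      pbT F p (pbT F c2 x) = x := by
    intro F x
    rw [← pbT_comp, pbT_homotopic F (pinchK_unit_right K.obj : (PMap.comp c2 p).Homotopic _)]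
    exact pbT_id F L x
  have a1 : ∀ (F : Testᵒᵖ ⥤ AddCommGrpCat.{0}) (x : F.obj (op L)),
      pbT F i1 (pbT F c1 x) = x := by
    intro F x
    rw [← pbT_comp]
    exact pbT_id F L x
  have a2 : ∀ (F : Testᵒᵖ ⥤ AddCommGrpCat.{0}) (x : F.obj (op L)),
      pbT F i2 (pbT F c2 x) = x := by
    intro F x
    rw [← pbT_comp]
    exact pbT_id F L x
  have b1 : ∀ (F : Testᵒᵖ ⥤ AddCommGrpCat.{0}) (x : F.obj (op L)),
      pbT F i1 (pbT F c2 x) = pbT F (K := L) (L := L) (PMap.zero L.obj L.obj.plus) x := by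
    intro F x
    rw [← pbT_comp]
    rfl
  have b2 : ∀ (F : Testᵒᵖ ⥤ AddCommGrpCat.{0}) (x : F.obj (op L)),
      pbT F i2 (pbT F c1 x) = pbT F (K := L) (L := L) (PMap.zero L.obj L.obj.plus) x := by
    intro F x
    rw [← pbT_comp]
    rfl
  let w : (G.h b).obj (op (Test.dbl9 L)) := pbT (G.h b) c1 x + pbT (G.h b) c2 y
  have hw : pbT (G.h b) p w = x + y := by
    change pbT (G.h b) p (pbT (G.h b) c1 x + pbT (G.h b) c2 y) = x + y
    rw [pbT_add, p1, p2]
  have hw1 : pbT (G.h b) i1 w = x := by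
    change pbT (G.h b) i1 (pbT (G.h b) c1 x + pbT (G.h b) c2 y) = x
    rw [pbT_add, a1, b1, hG0.pbT_zeroMap, add_zero]
  have hw2 : pbT (G.h b) i2 w = y := by
    change pbT (G.h b) i2 (pbT (G.h b) c1 x + pbT (G.h b) c2 y) = y
    rw [pbT_add, b2, a2, hG0.pbT_zeroMap, zero_add]
  have key : θ b (Test.dbl9 L) w = pbT (H.h b) c1 (θ b L x) + pbT (H.h b) c2 (θ b L y) := by
    have h := dz b L
      (θ b (Test.dbl9 L) w - (pbT (H.h b) c1 (θ b L x) + pbT (H.h b) c2 (θ b L y)))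
      (by
        change pbT (H.h b) i1 _ = 0
        rw [pbT_sub, pbT_add, a1, b1, hH0.pbT_zeroMap, add_zero, ← nat, hw1, sub_self])
      (by
        change pbT (H.h b) i2 _ = 0
        rw [pbT_sub, pbT_add, b2, a2, hH0.pbT_zeroMap, zero_add, ← nat, hw2, sub_self])
    exact sub_eq_zero.1 h
  rw [← hw, nat, key, pbT_add, p1, p2]

include hG0 hH0 dz nat sg in
theorem add_nat (b : ℕ) (K : Test) (x y : (G.h b).obj (op K)) :
    θ b K (x + y) = θ b K x + θ b K y := by
  apply sig_inj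
  have h1 : (G.σ b).hom.app (op K) (x + y) =
      (G.σ b).hom.app (op K) x + (G.σ b).hom.app (op K) y := map_add _ x y
  have h2 : (H.σ b).hom.app (op K) (θ b K x + θ b K y) =
      (H.σ b).hom.app (op K) (θ b K x) + (H.σ b).hom.app (op K) (θ b K y) := map_add _ _ _
  rw [← sg, h1, h2, ← sg, ← sg]
  exact add_cx hG0 hH0 dz θ nat (b + 1) K _ _

end additivity

/-- A natural family of maps compatible with the suspensions, as a morphism. -/
theorem exists_hom {G H : GF} (hG0 : G.Red) (hH0 : H.Red)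
    (dz : ∀ (b : ℕ) (K : Test) (x : (H.h b).obj (op (Test.dbl9 K))),
      pbT (H.h b) (K := K) (L := Test.dbl9 K) (PMap.inl K.obj K.obj) x = 0 →
      pbT (H.h b) (K := K) (L := Test.dbl9 K) (PMap.inr K.obj K.obj) x = 0 → x = 0)
    (θ : ∀ (b : ℕ) (K : Test), ((G.h b).obj (op K) : Type) → ((H.h b).obj (op K) : Type))
    (nat : ∀ (b : ℕ) (K L : Test) (f : PMap K.obj L.obj.plus) (x : (G.h b).obj (op L)),
      θ b K (pbT (G.h b) f x) = pbT (H.h b) f (θ b L x))
    (sg : ∀ (b : ℕ) (K : Test) (x : (G.h b).obj (op K)),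
      θ (b + 1) (Test.cx.obj K) ((G.σ b).hom.app (op K) x) =
        (H.σ b).hom.app (op K) (θ b K x)) :
    ∃ F : G ⟶ H, ∀ (b : ℕ) (K : Test) (x : (G.h b).obj (op K)),
      (F.app b).app (op K) x = θ b K x := by
  have hadd := add_nat hG0 hH0 dz θ nat sg
  have nat' : ∀ (b : ℕ) (K L : Test) (f : K ⟶ L) (x : (G.h b).obj (op L)),
      θ b K ((G.h b).map (Quiver.Hom.op f) x) = (H.h b).map (Quiver.Hom.op f) (θ b L x) := by
    intro b K L f x
    obtain ⟨g, hg⟩ := Quotient.exists_rep (f.hom : HMap K.obj L.obj.plus)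
    have hf : f = tmk g := ObjectProperty.hom_ext _ hg.symm
    subst hf
    exact nat b K L g x
  refine ⟨GF.Hom.mk' (fun b =>
    { app := fun K => AddCommGrpCat.ofHom (AddMonoidHom.mk' (θ b K.unop) (hadd b K.unop))
      naturality := ?_ }) ?_, ?_⟩
  · intro K L f
    ext x
    exact nat' b L.unop K.unop f.unop x
  · intro b K
    ext x
    exact sg b K.unop x
  · intro b K x
    rfl

/-! ## The exchange -/

section exchange

variable {D D' : Datum} (T : LocTheory D) (T' : LocTheory D') (N : LG T.toBiv D')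
  (N' : LG T'.toBiv D)

/-- representatives with two indices -/
abbrev R2 (D D' : Datum) (ι ι' : Type) [Fintype ι] [Fintype ι'] (K Z : LC) : Type :=
  PMap ((D.A ι).prod ((D'.A ι').prod K)) ((D.B ι).prod ((D'.B ι').prod Z)).plus

variable {T}

/-- the class of a representative -/
def val {ι ι' : Type} [Fintype ι] [Fintype ι'] {b : ℕ} {K : Test}
    (F : R2 D D' ι ι' K.obj (Zb b)) : ((N.H.h b).obj (op K) : Type) :=
  N.cls (ι := ι') (T.cls (ι := ι) F)

variable {ι ι' κ κ' : Type} [Fintype ι] [Fintype ι'] [Fintype κ] [Fintype κ'] {b : ℕ} {K L : Test}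

theorem exists_val (t : (N.H.h b).obj (op K)) : ∃ (n m : ℕ)
    (F : R2 D D' (Fin n) (Fin m) K.obj (Zb b)), t = val N F := by
  obtain ⟨m, y, rfl⟩ := N.surj t
  obtain ⟨n, -, f, rfl⟩ := T.cls_surj y 0
  exact ⟨n, m, f, rfl⟩

theorem val_homotopic {F G : R2 D D' ι ι' K.obj (Zb b)} (h : F.Homotopic G) :
    val N F = val N G := congrArg N.cls (T.cls_homotopic h)

/-- stabilisation in the first index -/
def st1 (F : R2 D D' ι ι' K.obj (Zb b)) (κ : Type) [Fintype κ] :
    R2 D D' (ι ⊕ κ) ι' K.obj (Zb b) :=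
  Datum.Rep.stab (D := D) (ι := ι) (K := (D'.A ι').prod K.obj) (Z := (D'.B ι').prod (Zb b)) F κ

/-- reindexing in the first index -/
def re1 (F : R2 D D' ι ι' K.obj (Zb b)) (e : ι ≃ κ) : R2 D D' κ ι' K.obj (Zb b) :=
  Datum.Rep.re (D := D) (ι := ι) (K := (D'.A ι').prod K.obj) (Z := (D'.B ι').prod (Zb b)) e F

theorem val_st1 (F : R2 D D' ι ι' K.obj (Zb b)) : val N (st1 F κ) = val N F :=
  congrArg N.cls (T.cls_stab (ι := ι) (K := (D'.A ι').prod K.obj) F κ)

theorem val_re1 (F : R2 D D' ι ι' K.obj (Zb b)) (e : ι ≃ κ) : val N (re1 F e) = val N F :=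
  congrArg N.cls (T.cls_re (ι := ι) (K := (D'.A ι').prod K.obj) e F)

theorem val_sw_st1 (F : R2 D D' ι ι' K.obj (Zb b)) :
    val (K := K) N' (sw (st1 F κ)) = val (K := K) N' (sw F) := by
  have h := stabR_cls (D := D) T' (K := K.obj) (Z := Zb b) F κ
  exact (congrArg N'.cls h).trans (N'.cls_stab _ κ)

theorem val_sw_re1 (F : R2 D D' ι ι' K.obj (Zb b)) (e : ι ≃ κ) :
    val (K := K) N' (sw (re1 F e)) = val (K := K) N' (sw F) := by
  have h := reR_cls (D := D) T' (K := K.obj) (Z := Zb b) e F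
  exact (congrArg N'.cls h).trans (N'.cls_re e _)

/-- stabilisation in the second index -/
def st2 (F : R2 D D' ι ι' K.obj (Zb b)) (κ' : Type) [Fintype κ'] :
    R2 D D' ι (ι' ⊕ κ') K.obj (Zb b) := sw (st1 (K := K) (sw F) κ')

/-- reindexing in the second index -/
def re2 (F : R2 D D' ι ι' K.obj (Zb b)) (e : ι' ≃ κ') : R2 D D' ι κ' K.obj (Zb b) :=
  sw (re1 (K := K) (sw F) e)

theorem val_st2 (F : R2 D D' ι ι' K.obj (Zb b)) : val N (st2 F κ') = val N F := by
  have h := val_sw_st1 T N (κ := κ') (K := K) (b := b) (sw F)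
  rw [sw_sw] at h
  exact h

theorem val_re2 (F : R2 D D' ι ι' K.obj (Zb b)) (e : ι' ≃ κ') : val N (re2 F e) = val N F := by
  have h := val_sw_re1 T N (K := K) (b := b) (sw F) e
  rw [sw_sw] at h
  exact h

theorem val_sw_st2 (F : R2 D D' ι ι' K.obj (Zb b)) :
    val (K := K) N' (sw (st2 F κ')) = val (K := K) N' (sw F) := by
  unfold st2
  rw [sw_sw]
  exact val_st1 N' (K := K) _

theorem val_sw_re2 (F : R2 D D' ι ι' K.obj (Zb b)) (e : ι' ≃ κ') :
    val (K := K) N' (sw (re2 F e)) = val (K := K) N' (sw F) := by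
  unfold re2
  rw [sw_sw]
  exact val_re1 N' (K := K) _ e

/-- `st2` on classes -/
theorem cls_st2 (F : R2 D D' ι ι' K.obj (Zb b)) :
    T.cls (ι := ι) (st2 F κ') = stabR D' T.toBiv (T.cls (ι := ι) F) κ' := by
  have h := stabR_cls (D := D') T (ι := ι') (ι' := ι) (K := K.obj) (Z := Zb b) (sw F) κ'
  rw [sw_sw] at h
  exact h

theorem key0 (F G : R2 D D' ι ι' K.obj (Zb b)) (h : val N F = val N G) :
    val (K := K) N' (sw F) = val (K := K) N' (sw G) := by
  have h1 : N.cls (T.cls (ι := ι) F - T.cls (ι := ι) G) = 0 := by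
    rw [N.cls_sub]
    exact sub_eq_zero.2 h
  obtain ⟨m, hm⟩ := N.eq_zero _ h1
  rw [stabR_sub, ← cls_st2, ← cls_st2, sub_eq_zero] at hm
  obtain ⟨n, hn⟩ := T.cls_eq hm
  rw [← val_sw_st2 T' N' (κ' := Fin m) F, ← val_sw_st2 T' N' (κ' := Fin m) G,
    ← val_sw_st1 T' N' (κ := Fin n) (st2 F (Fin m)),
    ← val_sw_st1 T' N' (κ := Fin n) (st2 G (Fin m))]
  exact val_homotopic N' (K := K) (sw_homotopic hn)

theorem key (F : R2 D D' ι ι' K.obj (Zb b)) (G : R2 D D' κ κ' K.obj (Zb b))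
    (h : val N F = val N G) : val (K := K) N' (sw F) = val (K := K) N' (sw G) := by
  let F2 : R2 D D' (ι ⊕ κ) (ι' ⊕ κ') K.obj (Zb b) := st2 (st1 F κ) κ'
  let G2 : R2 D D' (ι ⊕ κ) (ι' ⊕ κ') K.obj (Zb b) :=
    re2 (st2 (re1 (st1 G ι) (Equiv.sumComm κ ι)) ι') (Equiv.sumComm κ' ι')
  have hF : val N F2 = val N F := (val_st2 N _).trans (val_st1 N F)
  have hG : val N G2 = val N G :=
    (val_re2 N _ _).trans ((val_st2 N _).trans ((val_re1 N _ _).trans (val_st1 N G)))
  have hF' : val (K := K) N' (sw F2) = val (K := K) N' (sw F) :=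
    (val_sw_st2 T' N' _).trans (val_sw_st1 T' N' F)
  have hG' : val (K := K) N' (sw G2) = val (K := K) N' (sw G) :=
    (val_sw_re2 T' N' _ _).trans ((val_sw_st2 T' N' _).trans
      ((val_sw_re1 T' N' _ _).trans (val_sw_st1 T' N' G)))
  rw [← hF', ← hG']
  exact key0 T' N N' F2 G2 (by rw [hF, hG, h])

/-- the exchange map -/
def theta (b : ℕ) (K : Test) (t : (N.H.h b).obj (op K)) : ((N'.H.h b).obj (op K) : Type) :=
  val (K := K) N' (sw (exists_val N t).choose_spec.choose_spec.choose)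

theorem theta_val (F : R2 D D' ι ι' K.obj (Zb b)) :
    theta T' N N' b K (val N F) = val (K := K) N' (sw F) :=
  key T' N N' _ F (exists_val N (val N F)).choose_spec.choose_spec.choose_spec.symm

theorem theta_nat (b : ℕ) (K L : Test) (f : PMap K.obj L.obj.plus) (x : (N.H.h b).obj (op L)) :
    theta T' N N' b K (pbT (N.H.h b) f x) = pbT (N'.H.h b) f (theta T' N N' b L x) := by
  obtain ⟨n, m, F, rfl⟩ := exists_val N x
  have h1 : pbT (N.H.h b) f (val N F) = val N (K := K)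
      (Datum.Rep.pre (D := D) (ι := Fin n) (PMap.ltens (D'.A (Fin m)) f) F) := by
    unfold val
    rw [N.map_cls, J_comp_cls]
  have h2 : pbT (N'.H.h b) f (val (K := L) N' (sw F)) = val N' (K := K)
      (Datum.Rep.pre (D := D') (ι := Fin m) (PMap.ltens (D.A (Fin n)) f) (sw F)) := by
    unfold val
    rw [N'.map_cls, J_comp_cls]
  rw [h1, theta_val, theta_val, h2]
  exact congrArg (val (K := K) N') (pre_sw f F)

theorem theta_sg (b : ℕ) (K : Test) (x : (N.H.h b).obj (op K)) :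
    theta T' N N' (b + 1) (Test.cx.obj K) ((N.H.σ b).hom.app (op K) x) =
      (N'.H.σ b).hom.app (op K) (theta T' N N' b K x) := by
  obtain ⟨n, m, F, rfl⟩ := exists_val N x
  have h1 : (N.H.σ b).hom.app (op K) (val N F) = val (b := b + 1) N (K := Test.cx.obj K)
      (Datum.Rep.pre (D := D) (ι := Fin n) (K := (D'.A (Fin m)).prod (LC.C.prod K.obj))
        (PMap.ofHomeo (frontH (D'.A (Fin m)) LC.C K.obj))
        ((Datum.Rep.ltens LC.C (K := (D'.A (Fin m)).prod K.obj) (L := (D'.B (Fin m)).prod (Zb b))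
          (D := D) (ι := Fin n) F).post
        (Z := (D'.B (Fin m)).prod (LC.C.prod (Zb b)))
          (PMap.ofHomeo (frontH (D'.B (Fin m)) LC.C (Zb b)).symm))) := by
    refine (N.σ_cls _).trans ?_
    refine congrArg (N.cls (b := b + 1) (K := Test.cx.obj K)) ?_
    rw [ltens_cls, cls_comp_J, J_comp_cls]
    rfl
  have h2 : (N'.H.σ b).hom.app (op K) (val (K := K) N' (sw F)) =
      val (b := b + 1) N' (K := Test.cx.obj K)
      (Datum.Rep.pre (D := D') (ι := Fin m) (K := (D.A (Fin n)).prod (LC.C.prod K.obj))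
        (PMap.ofHomeo (frontH (D.A (Fin n)) LC.C K.obj))
        ((Datum.Rep.ltens LC.C (K := (D.A (Fin n)).prod K.obj) (L := (D.B (Fin n)).prod (Zb b))
          (D := D') (ι := Fin m) (sw F)).post
        (Z := (D.B (Fin n)).prod (LC.C.prod (Zb b)))
          (PMap.ofHomeo (frontH (D.B (Fin n)) LC.C (Zb b)).symm))) := by
    refine (N'.σ_cls _).trans ?_
    refine congrArg (N'.cls (b := b + 1) (K := Test.cx.obj K)) ?_
    rw [ltens_cls, cls_comp_J, J_comp_cls]
    rfl
  rw [theta_val, h2]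
  refine (congrArg (theta T' N N' (b + 1) (Test.cx.obj K)) h1).trans ?_
  refine (theta_val T' N N' (b := b + 1) (K := Test.cx.obj K) _).trans ?_
  exact congrArg (val (b := b + 1) (K := Test.cx.obj K) N') (susp_sw F)

theorem theta_theta (b : ℕ) (K : Test) (x : (N.H.h b).obj (op K)) :
    theta T N' N b K (theta T' N N' b K x) = x := by
  obtain ⟨n, m, F, rfl⟩ := exists_val N x
  rw [theta_val, theta_val, sw_sw]

/-- localisations commute -/
theorem comm : Nonempty (N.H ≅ N'.H) := by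
  obtain ⟨F, hF⟩ := exists_hom N.red N'.red N'.dbl_zero (theta T' N N') (theta_nat T' N N')
    (theta_sg T' N N')
  obtain ⟨G, hG⟩ := exists_hom N'.red N.red N.dbl_zero (theta T N' N) (theta_nat T N' N)
    (theta_sg T N' N)
  refine ⟨⟨F, G, ?_, ?_⟩⟩
  · refine GF.hom_ext fun b => ?_
    ext K x
    change (G.app b).app K ((F.app b).app K x) = x
    rw [hF b K.unop, hG b K.unop]
    exact theta_theta T' N N' b K.unop x
  · refine GF.hom_ext fun b => ?_
    ext K x
    change (F.app b).app K ((G.app b).app K x) = x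
    rw [hG b K.unop, hF b K.unop]
    exact theta_theta T N' N b K.unop x

end exchange

end CommX

end Pool.Agent.Helper1.Stab
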