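import Pool.Agent.Helper1.Stab.Comp
import Pool.Agent.Helper68.Stab.LocRep
import Pool.Agent.Helper9.Stab.Add
import Pool.Agent.Helper9.Stab.BivL

/-! Two localisations of bivariant theories commute. -/

open CategoryTheory Topology Filter Set Opposite

noncomputable section

namespace Pool.Agent.Helper1.Stab

namespace CommX

/-! ## Exchange of the factors -/

/-- `(x, y, k) ↦ (y, x, k)` -/
def frontH (X Y K : LC) : X.prod (Y.prod K) ≃ₜ Y.prod (X.prod K) where
  toFun x := (x.2.1, (x.1, x.2.2))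
  invFun x := (x.2.1, (x.1, x.2.2))
  left_inv _ := rfl
  right_inv _ := rfl
  continuous_toFun := by fun_prop
  continuous_invFun := by fun_prop

section
variable {A A' B B' K L Z : LC}

/-- the same map with the factors exchanged -/
def sw (F : PMap (A.prod (A'.prod K)) (B.prod (B'.prod Z)).plus) :
    PMap (A'.prod (A.prod K)) (B'.prod (B.prod Z)).plus :=
  (PMap.ofHomeo (frontH B B' Z)).comp (PMap.comp F (PMap.ofHomeo (frontH A' A K)))

theorem sw_val (F : PMap (A.prod (A'.prod K)) (B.prod (B'.prod Z)).plus) (a : A) (a' : A')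
    (k : K) : sw F (a', (a, k)) = bnd (F (a, (a', k))) (fun p =>
      (((p.2.1, (p.1, p.2.2)) : B' × (B × Z)) : OnePoint (B' × (B × Z)))) := by
  change (PMap.ofHomeo (frontH B B' Z)).plus (F (a, (a', k))) = _
  rcases F (a, (a', k)) with _ | p <;> rfl

theorem sw_sw (F : PMap (A.prod (A'.prod K)) (B.prod (B'.prod Z)).plus) : sw (sw F) = F := by
  ext ⟨a, a', k⟩
  rw [sw_val, sw_val]
  rcases F (a, (a', k)) with _ | p <;> rfl

theorem sw_homotopic {F G : PMap (A.prod (A'.prod K)) (B.prod (B'.prod Z)).plus}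
    (h : F.Homotopic G) : (sw F).Homotopic (sw G) :=
  PMap.Homotopic.comp_right _ (h.comp_left _)

end

/-! ## Classes of representatives -/

section
variable {D : Datum} (T : LocTheory D)

theorem J_comp_cls {ι : Type} [Fintype ι] {K L Z : LC} (φ : PMap K L.plus)
    (f : D.Rep ι L Z) : T.comp (T.J φ) (T.cls f) = T.cls (Datum.Rep.pre φ f) := by
  rw [T.J_eq ι φ, T.comp_cls, Datum.ofMap_cmp, T.cls_re, T.cls_stab]

theorem cls_comp_J {ι : Type} [Fintype ι] {K L Z : LC} (f : D.Rep ι K L)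
    (ψ : PMap L Z.plus) : T.comp (T.cls f) (T.J ψ) = T.cls (f.post ψ) := by
  rw [T.J_eq ι ψ, T.comp_cls, Datum.cmp_ofMap, T.cls_stab]

theorem ltens_cls {ι : Type} [Fintype ι] {K L : LC} (W : LC) (f : D.Rep ι K L) :
    T.ltens W (T.cls f) = T.cls (Datum.Rep.ltens W f) := by
  unfold BivData.ltens
  rw [T.tens_cls, cls_comp_J, J_comp_cls]
  rfl

end

theorem pre_ofHomeo_val {D : Datum} {ι : Type} [Fintype ι] {K L Z : LC} (e : K ≃ₜ L)
    (f : D.Rep ι L Z) (v : D.A ι) (k : K) :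
    Datum.Rep.pre (PMap.ofHomeo e) f (v, k) = f (v, e k) := rfl

/-! ## The transition maps -/

section
variable (D : Datum) (R : Biv)

/-- the transition maps of the localisation at a datum -/
def stabR {ι : Type} [Fintype ι] {K Z : LC}
    (y : R.Hom ((D.A ι).prod K) ((D.B ι).prod Z)) (κ : Type) [Fintype κ] :
    R.Hom ((D.A (ι ⊕ κ)).prod K) ((D.B (ι ⊕ κ)).prod Z) :=
  R.comp (R.J (PMap.ofHomeo (D.domH ι κ K)))
    (R.comp (R.comp (R.tens y (D.A κ)) (R.ltens ((D.B ι).prod Z) (R.J (D.shat κ))))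
      (R.comp (R.J (PMap.ofHomeo (LC.rr (D.B ι) Z (D.B κ)))) (R.tens (R.J (D.mulB ι κ)) Z)))

/-- reindexing -/
def reR {ι κ : Type} [Fintype ι] [Fintype κ] (e : ι ≃ κ) {K Z : LC}
    (y : R.Hom ((D.A ι).prod K) ((D.B ι).prod Z)) :
    R.Hom ((D.A κ).prod K) ((D.B κ).prod Z) :=
  R.comp (R.tens (R.J (PMap.ofHomeo (Datum.reA D e).symm)) K)
    (R.comp y (R.tens (R.J (PMap.ofHomeo (Datum.reB D e))) Z))

variable {ι : Type} [Fintype ι] {K L Z : LC}

theorem stabR_add (y z : R.Hom ((D.A ι).prod K) ((D.B ι).prod Z)) (κ : Type) [Fintype κ] :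
    stabR D R (y + z) κ = stabR D R y κ + stabR D R z κ := by
  unfold stabR
  rw [R.tens_add, R.add_comp, R.add_comp, R.comp_add]

/-- additivity, as a homomorphism -/
def stabH (K Z : LC) (κ : Type) [Fintype κ] : R.Hom ((D.A ι).prod K) ((D.B ι).prod Z) →+
    R.Hom ((D.A (ι ⊕ κ)).prod K) ((D.B (ι ⊕ κ)).prod Z) :=
  AddMonoidHom.mk' (fun y => stabR D R y κ) fun y z => stabR_add D R y z κ

theorem stabR_zero (κ : Type) [Fintype κ] :
    stabR D R (0 : R.Hom ((D.A ι).prod K) ((D.B ι).prod Z)) κ = 0 :=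
  map_zero (stabH D R K Z κ)

theorem stabR_sub (y z : R.Hom ((D.A ι).prod K) ((D.B ι).prod Z)) (κ : Type) [Fintype κ] :
    stabR D R (y - z) κ = stabR D R y κ - stabR D R z κ :=
  map_sub (stabH D R K Z κ) y z

theorem stabR_pre (φ : PMap K L.plus) (y : R.Hom ((D.A ι).prod L) ((D.B ι).prod Z)) (κ : Type)
    [Fintype κ] : stabR D R (R.comp (R.J (PMap.ltens (D.A ι) φ)) y) κ =
      R.comp (R.J (PMap.ltens (D.A (ι ⊕ κ)) φ)) (stabR D R y κ) := by
  unfold stabR
  rw [R.tens_comp, R.tens_J, R.assoc, R.assoc, ← R.assoc (R.J _) (R.J _), ← R.J_comp,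
    ← R.assoc (R.J _) (R.J _), ← R.J_comp]
  have e : ((PMap.ltens (D.A ι) φ).tens (D.A κ)).comp (PMap.ofHomeo (D.domH ι κ K)) =
      (PMap.ofHomeo (D.domH ι κ L)).comp (PMap.ltens (D.A (ι ⊕ κ)) φ) := by
    ext ⟨v, k⟩
    change smashPt ((D.A ι).prod L) (D.A κ) (smashPt (D.A ι) L
      (((D.splitA ι κ v).1 : OnePoint (D.A ι)), φ k), ((D.splitA ι κ v).2 : OnePoint (D.A κ))) =
      (PMap.ofHomeo (D.domH ι κ L)).plus (smashPt (D.A (ι ⊕ κ)) L
        ((v : OnePoint (D.A (ι ⊕ κ))), φ k))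
    rcases φ k with _ | l <;> rfl
  rw [e, R.assoc]

end

/-! ## Transition maps of classes of representatives -/

section
variable {D D' : Datum} (T' : LocTheory D')
variable {ι ι' : Type} [Fintype ι] [Fintype ι'] {K L Z : LC}

theorem stabR_cls (F : D.Rep ι ((D'.A ι').prod K) ((D'.B ι').prod Z)) (κ : Type) [Fintype κ] :
    T'.cls (ι := ι') (sw (F.stab κ)) = stabR D T'.toBiv (T'.cls (ι := ι') (sw F)) κ := by
  unfold stabR
  rw [T'.tens_cls, Helper9.Stab.ltens_J, T'.tens_J, ← T'.J_comp, cls_comp_J, cls_comp_J, J_comp_cls]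
  congr 1
  ext ⟨v, w, k⟩
  rw [sw_val, Datum.stab_val, pre_ofHomeo_val]
  rw [Datum.post_val, Datum.post_val]
  have e : (D.domH ι κ K) (w, k) = (((D.splitA ι κ w).1, k), (D.splitA ι κ w).2) := rfl
  rw [e, Datum.tens_val, sw_val]
  rcases F ((D.splitA ι κ w).1, (v, k)) with _ | p
  · rfl
  · have e2 : ∀ (q : D.B ι × Z) (a : D.A κ), PMap.ltens ((D.B ι).prod Z) (D.shat κ) (q, a) =
        bnd (D.shat κ a) (fun c => (((q, c) : (D.B ι × Z) × D.B κ) :
          OnePoint ((D.B ι × Z) × D.B κ))) := fun _ _ => rfl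
    change bnd (bnd (D.shat κ (D.splitA ι κ w).2) _) _ =
      bnd (bnd (PMap.ltens ((D.B ι).prod Z) (D.shat κ) ((p.1, p.2.2), (D.splitA ι κ w).2)) _) _
    rw [e2]
    rcases D.shat κ (D.splitA ι κ w).2 with _ | c <;> rfl

theorem reR_cls {κ : Type} [Fintype κ] (e : ι ≃ κ)
    (F : D.Rep ι ((D'.A ι').prod K) ((D'.B ι').prod Z)) :
    T'.cls (ι := ι') (sw (F.re e)) = reR D T'.toBiv e (T'.cls (ι := ι') (sw F)) := by
  unfold reR
  rw [T'.tens_J, T'.tens_J, cls_comp_J, J_comp_cls]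
  congr 1
  ext ⟨v, w, k⟩
  have e1 : Datum.Rep.pre (ι := ι') ((PMap.ofHomeo (Datum.reA D e).symm).tens K)
      (Datum.Rep.post (D := D') (ι := ι') (sw F) ((PMap.ofHomeo (D.reB e)).tens Z)) (v, (w, k)) =
      Datum.Rep.post (D := D') (ι := ι') (sw F) ((PMap.ofHomeo (D.reB e)).tens Z)
        (v, (D.reA e.symm w, k)) := rfl
  rw [sw_val, Datum.re_val, e1, Datum.post_val, sw_val]
  rcases F (D.reA e.symm w, (v, k)) with _ | p <;> rfl

theorem pre_sw (φ : PMap K L.plus) (F : D.Rep ι ((D'.A ι').prod L) ((D'.B ι').prod Z)) :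
    sw (Datum.Rep.pre (PMap.ltens (D'.A ι') φ) F) =
      Datum.Rep.pre (ι := ι') (PMap.ltens (D.A ι) φ) (sw F) := by
  ext ⟨v, w, k⟩
  rw [sw_val, Datum.pre_val, Datum.pre_val]
  have e1 : (PMap.ltens (D'.A ι') φ) (v, k) = bnd (φ k) (fun l =>
      (((v, l) : D'.A ι' × L) : OnePoint (D'.A ι' × L))) := rfl
  have e2 : (PMap.ltens (D.A ι) φ) (w, k) = bnd (φ k) (fun l =>
      (((w, l) : D.A ι × L) : OnePoint (D.A ι × L))) := rfl
  rw [e1, e2]
  rcases φ k with _ | l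
  · rfl
  · exact (sw_val F w v l).symm

theorem susp_sw (F : D.Rep ι ((D'.A ι').prod K) ((D'.B ι').prod Z)) :
    sw (Datum.Rep.pre (K := (D'.A ι').prod (LC.C.prod K))
        (PMap.ofHomeo (frontH (D'.A ι') LC.C K)) ((Datum.Rep.ltens LC.C F).post
        (Z := (D'.B ι').prod (LC.C.prod Z)) (PMap.ofHomeo (frontH (D'.B ι') LC.C Z).symm))) =
      Datum.Rep.pre (ι := ι') (PMap.ofHomeo (frontH (D.A ι) LC.C K))
        ((Datum.Rep.ltens LC.C (sw F : D'.Rep ι' _ _)).post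
          (PMap.ofHomeo (frontH (D.B ι) LC.C Z).symm)) := by
  ext ⟨v, w, c, k⟩
  have e1 : (frontH (D'.A ι') LC.C K) (v, (c, k)) = (c, (v, k)) := rfl
  have e2 : (frontH (D.A ι) LC.C K) (w, (c, k)) = (c, (w, k)) := rfl
  rw [sw_val, pre_ofHomeo_val, pre_ofHomeo_val, e1, e2, Datum.post_val, Datum.post_val,
    Datum.ltens_val, Datum.ltens_val, sw_val]
  rcases F (w, (v, k)) with _ | p <;> rfl

end

/-! ## Localisations -/

/-- The graded functor `H^b(K) = colim_ι R(A ι × K, B ι × ℂ^b)`. -/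
structure LG (R : Biv) (D : Datum) where
  H : GF
  cls : ∀ {b : ℕ} {ι : Type} [Fintype ι] {K : Test},
    R.Hom ((D.A ι).prod K.obj) ((D.B ι).prod (Zb b)) → ((H.h b).obj (op K) : Type)
  cls_add : ∀ {b : ℕ} {ι : Type} [Fintype ι] {K : Test}
    (y z : R.Hom ((D.A ι).prod K.obj) ((D.B ι).prod (Zb b))), cls (y + z) = cls y + cls z
  cls_stab : ∀ {b : ℕ} {ι : Type} [Fintype ι] {K : Test}
    (y : R.Hom ((D.A ι).prod K.obj) ((D.B ι).prod (Zb b))) (κ : Type) [Fintype κ],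
    cls (stabR D R y κ) = cls y
  cls_re : ∀ {b : ℕ} {ι κ : Type} [Fintype ι] [Fintype κ] (e : ι ≃ κ) {K : Test}
    (y : R.Hom ((D.A ι).prod K.obj) ((D.B ι).prod (Zb b))), cls (reR D R e y) = cls y
  surj : ∀ {b : ℕ} {K : Test} (t : (H.h b).obj (op K)), ∃ n,
    ∃ y : R.Hom ((D.A (Fin n)).prod K.obj) ((D.B (Fin n)).prod (Zb b)), t = cls y
  eq_zero : ∀ {b : ℕ} {ι : Type} [Fintype ι] {K : Test}
    (y : R.Hom ((D.A ι).prod K.obj) ((D.B ι).prod (Zb b))), cls y = 0 →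
    ∃ m : ℕ, stabR D R y (Fin m) = 0
  map_cls : ∀ {b : ℕ} {ι : Type} [Fintype ι] {K L : Test} (φ : PMap K.obj L.obj.plus)
    (y : R.Hom ((D.A ι).prod L.obj) ((D.B ι).prod (Zb b))),
    pbT (H.h b) φ (cls y) = cls (R.comp (R.J (PMap.ltens (D.A ι) φ)) y)
  σ_cls : ∀ {b : ℕ} {ι : Type} [Fintype ι] {K : Test}
    (y : R.Hom ((D.A ι).prod K.obj) ((D.B ι).prod (Zb b))),
    ((H.σ b).hom.app (op K)) (cls y) =
      cls (b := b + 1) (K := Test.cx.obj K)
        (R.comp (R.J (PMap.ofHomeo (frontH (D.A ι) LC.C K.obj)))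
          (R.comp (R.ltens LC.C y) (R.J (PMap.ofHomeo (frontH (D.B ι) LC.C (Zb b)).symm))))

namespace LG
variable {R : Biv} {D : Datum} (N : LG R D)

theorem cls_zero {b : ℕ} {ι : Type} [Fintype ι] {K : Test} :
    N.cls (b := b) (ι := ι) (K := K) 0 = 0 := by
  have h := N.cls_add (b := b) (ι := ι) (K := K) 0 0
  rw [add_zero] at h
  exact left_eq_add.1 h

theorem cls_sub {b : ℕ} {ι : Type} [Fintype ι] {K : Test}
    (y z : R.Hom ((D.A ι).prod K.obj) ((D.B ι).prod (Zb b))) :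
    N.cls (y - z) = N.cls y - N.cls z := by
  have h := N.cls_add (y - z) z
  rw [sub_add_cancel] at h
  rw [h, add_sub_cancel_right]

theorem red : N.H.Red := by
  intro b K hK hE x
  obtain ⟨n, y, rfl⟩ := N.surj x
  have h : IsEmpty ((D.A (Fin n)).prod K) := ⟨fun z => hE.false z.2⟩
  rw [Helper9.Stab.hom_empty R h y]
  exact N.cls_zero

/-- distributing a factor over a double -/
def distL (A L : LC) : (A.prod L).sum (A.prod L) ≃ₜ A.prod (L.sum L) where
  toFun := Sum.elim (fun x => (x.1, Sum.inl x.2)) (fun x => (x.1, Sum.inr x.2))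
  invFun x := Sum.elim (fun l => Sum.inl (x.1, l)) (fun l => Sum.inr (x.1, l)) x.2
  left_inv := by rintro (x | x) <;> rfl
  right_inv := by rintro ⟨a, x | x⟩ <;> rfl
  continuous_toFun := by
    refine Continuous.sumElim ?_ ?_
    · exact continuous_fst.prodMk (continuous_inl.comp continuous_snd)
    · exact continuous_fst.prodMk (continuous_inr.comp continuous_snd)
  continuous_invFun := by
    refine (Homeomorph.prodSumDistrib (X := A) (Y := L) (Z := L)).continuous.congr ?_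
    rintro ⟨a, x | x⟩ <;> rfl

theorem zero_of_pair (b : ℕ) (K L : Test) (i1 i2 : PMap K.obj L.obj.plus)
    (hz : ∀ (A B : LC) (z : R.Hom (A.prod L.obj) B), R.comp (R.J (PMap.ltens A i1)) z = 0 →
      R.comp (R.J (PMap.ltens A i2)) z = 0 → z = 0) (x : (N.H.h b).obj (op L))
    (h1 : pbT (N.H.h b) i1 x = 0) (h2 : pbT (N.H.h b) i2 x = 0) : x = 0 := by
  obtain ⟨n, y, rfl⟩ := N.surj x
  rw [N.map_cls] at h1
  obtain ⟨m, hm⟩ := N.eq_zero _ h1
  rw [stabR_pre] at hm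
  rw [← N.cls_stab y (Fin m), N.map_cls] at h2
  obtain ⟨m', hm'⟩ := N.eq_zero _ h2
  rw [stabR_pre] at hm'
  rw [← N.cls_stab y (Fin m), ← N.cls_stab _ (Fin m')]
  have hl : R.comp (R.J (PMap.ltens (D.A ((Fin n ⊕ Fin m) ⊕ Fin m')) i1))
      (stabR D R (stabR D R y (Fin m)) (Fin m')) = 0 := by
    rw [← stabR_pre, hm, stabR_zero]
  rw [hz _ _ _ hl hm']
  exact N.cls_zero

theorem pair_zero (A B L : LC) (z : R.Hom (A.prod (L.sum L)) B)
    (h1 : R.comp (R.J (PMap.ltens A (PMap.inl L L))) z = 0)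
    (h2 : R.comp (R.J (PMap.ltens A (PMap.inr L L))) z = 0) : z = 0 := by
  have hs := Helper9.Stab.sum_zero R (R.comp (R.J (PMap.ofHomeo (distL A L))) z)
    (by
      rw [← R.assoc, ← R.J_comp]
      exact h1)
    (by
      rw [← R.assoc, ← R.J_comp]
      exact h2)
  have h3 := congrArg (fun z => R.comp (R.J (PMap.ofHomeo (distL A L).symm)) z) hs
  simp only at h3
  rw [← R.assoc, ← R.J_comp, Helper9.Stab.c_zero, Helper9.Stab.ofHomeo_comp] at h3
  have e : (distL A L).symm.trans (distL A L) = Homeomorph.refl _ := by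
    refine Homeomorph.ext fun k => ?_
    exact (distL A L).apply_symm_apply k
  rw [e] at h3
  exact (R.id_comp _).symm.trans h3

theorem dbl_zero (b : ℕ) (K : Test) (x : (N.H.h b).obj (op (Test.dbl9 K)))
    (h1 : pbT (N.H.h b) (K := K) (L := Test.dbl9 K) (PMap.inl K.obj K.obj) x = 0)
    (h2 : pbT (N.H.h b) (K := K) (L := Test.dbl9 K) (PMap.inr K.obj K.obj) x = 0) : x = 0 :=
  N.zero_of_pair b K (Test.dbl9 K) (PMap.inl K.obj K.obj) (PMap.inr K.obj K.obj)
    (fun A B z => pair_zero A B K.obj z) x h1 h2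

end LG

end CommX

end Pool.Agent.Helper1.Stab
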